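import Pool.Agent.X326.TSb.Field

/-!
# The function field of the hypersurface is the function field of a schön variety
-/

set_option autoImplicit false

universe u

open Pool.Agent.TH214.SD Pool.Agent.TH188.VT

namespace Pool.Agent.X326.TSb

section

variable {k K : Type u} [Field k] [Field K] [Algebra k K] {m n N : ℕ} (p r : ℕ)
  (v : Fin N → ℕ) (β₀ : Fin n → ℕ) (β : Fin N → Fin n → ℕ) (a : Fin N → ℕ) (b₀ : k) (b : Fin N → k)
  (g : Fin (N + 1) → Fin m → MvPolynomial (Fin 2) k)
  (s : Fin m → Fin 2 → K) (y : Fin n → K) (x : Fin N → K)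

/-- the fields of the surfaces -/
noncomputable def EE (c : Fin m) : IntermediateField k K := IntermediateField.adjoin k (Set.range (s c))

/-- the independent torus variables -/
abbrev J' (n : ℕ) {N : ℕ} (i₀ : Fin N) : Type := Fin n ⊕ {i : Fin N // i ≠ i₀}

/-- the inclusion -/
def incl {n N : ℕ} (r : ℕ) (i₀ : Fin N) : J' n i₀ → JJ n N r :=
  Sum.elim Sum.inl fun i => Sum.inr (Sum.inl i.1)

/-- the indices of the independent torus variables -/
noncomputable def rho {n N : ℕ} (r : ℕ) (i₀ : Fin N) (j : Fin (Fintype.card (J' n i₀))) :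
    Fin (Fintype.card (JJ n N r)) :=
  eJ n N r (incl r i₀ ((Fintype.equivFin _).symm j))

lemma adjoin_EE : IntermediateField.adjoin k (⋃ c, (EE (k := k) s c : Set K)) =
    IntermediateField.adjoin k (Set.range fun q : Fin m × Fin 2 => s q.1 q.2) := by
  apply le_antisymm
  · rw [IntermediateField.adjoin_le_iff]
    intro z hz
    obtain ⟨c, hc⟩ := Set.mem_iUnion.1 hz
    have h1 : EE (k := k) s c ≤ IntermediateField.adjoin k
        (Set.range fun q : Fin m × Fin 2 => s q.1 q.2) := by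
      apply IntermediateField.adjoin.mono
      rintro _ ⟨d, rfl⟩
      exact ⟨(c, d), rfl⟩
    exact h1 hc
  · rw [IntermediateField.adjoin_le_iff]
    rintro _ ⟨⟨c, d⟩, rfl⟩
    apply IntermediateField.subset_adjoin
    exact Set.mem_iUnion.2 ⟨c, IntermediateField.subset_adjoin k _ ⟨d, rfl⟩⟩

lemma card_eq {n N : ℕ} (r : ℕ) (i₀ : Fin N) :
    (r + 1) + Fintype.card (J' n i₀) = Fintype.card (JJ n N r) := by
  have h1 : Fintype.card {i : Fin N // i ≠ i₀} = N - 1 := by
    rw [Fintype.card_subtype_compl, Fintype.card_fin, Fintype.card_subtype_eq]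
  have h2 : 0 < N := i₀.pos
  simp only [Fintype.card_sum, Fintype.card_fin, h1]
  omega

theorem isWildCover [Fact p.Prime] [CharP k p] (hb : ∀ i, b i ≠ 0) (ha : ∀ i, ¬ p ∣ a i)
    (hr : ∀ i, v i ≤ r) (i₀ : Fin N) (hi₀ : v i₀ = 0)
    (h0 : Lf p r v β₀ β a b₀ b g s y x 0 = 0)
    (hL : ∀ l : Fin r, Lf p r v β₀ β a b₀ b g s y x ((l : ℕ) + 1) ≠ 0)
    (hy : ∀ j, y j ≠ 0) (hx : ∀ i, x i ≠ 0) (hU : ∀ i, uu g s i ≠ 0)
    (hind : AlgebraicIndependent k (Sum.elim (fun q : Fin m × Fin 2 => s q.1 q.2)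
      (Sum.elim y fun i : {i : Fin N // i ≠ i₀} => x i)))
    (hgen : IntermediateField.adjoin k ((Set.range fun q : Fin m × Fin 2 => s q.1 q.2) ∪
      (Set.range y ∪ Set.range x)) = ⊤) :
    IsWildCover (EE (k := k) s) p (r + 1) (uu g s) (yy p r v β₀ β a b₀ b g s y x) (GG p r v β₀ β a (b₀ ≠ 0) b₀ b)
      (rho (n := n) r i₀) (fun _ => 0) (Fin.elim0 : Fin 0 → _) ∅ (Fin.elim0 : Fin 0 → K) := by
  have hchar : CharP K p := charP_of_injective_algebraMap (algebraMap k K).injective p
  refine ⟨⟨?_, ?_, ?_, ?_, ?_, ?_, ?_⟩, ?_, ?_, ?_, ?_⟩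
  · exact Or.inr ⟨s, hind.comp Sum.inl Sum.inl_injective, fun _ => rfl⟩
  · intro c
    refine ⟨hU c, fun i => ⟨MvPolynomial.aeval (s i) (g c i), ?_⟩, rfl⟩
    apply IntermediateField.algebra_adjoin_le_adjoin
    rw [Algebra.adjoin_range_eq_range_aeval]
    exact ⟨_, rfl⟩
  · intro j
    rw [yy]
    rcases (eJ n N r).symm j with j | i | l
    · exact hy j
    · exact hx i
    · exact hL l
  · exact value_GG p r v β₀ β a b₀ b g s y x hb hr h0
  · exact schon p r v β₀ β a (b₀ ≠ 0) b₀ b hb id ha ⟨i₀, hi₀⟩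
  · exact card_eq r i₀
  · have h1 : AlgebraicIndependent k (Sum.elim (Sum.elim y fun i : {i : Fin N // i ≠ i₀} => x i)
        (fun q : Fin m × Fin 2 => s q.1 q.2)) := by
      have h2 := hind.comp Sum.swap Sum.swap_leftInverse.injective
      have h3 : (Sum.elim (fun q : Fin m × Fin 2 => s q.1 q.2)
          (Sum.elim y fun i : {i : Fin N // i ≠ i₀} => x i)) ∘ Sum.swap =
          Sum.elim (Sum.elim y fun i : {i : Fin N // i ≠ i₀} => x i)
            (fun q : Fin m × Fin 2 => s q.1 q.2) := by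
        funext q
        rcases q with q | q <;> rfl
      rwa [h3] at h2
    have h2 := (AlgebraicIndependent.sumElim_iff.1 h1).2
    have h3 := IntermediateField.algebraicIndependent_adjoin_iff.2 h2
    rw [adjoin_EE]
    have h4 : yy p r v β₀ β a b₀ b g s y x ∘ rho (n := n) r i₀ =
        (Sum.elim y fun i : {i : Fin N // i ≠ i₀} => x i) ∘
          (Fintype.equivFin (J' n i₀)).symm := by
      funext j
      simp only [Function.comp_apply, yy, rho, Equiv.symm_apply_apply]
      rcases (Fintype.equivFin (J' n i₀)).symm j with j | i <;> rfl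
    rw [h4]
    exact h3.comp _ (Equiv.injective _)
  · intro l z hz _ t
    exact t.elim0
  · intro t
    exact t.elim0
  · intro t
    exact t.elim0
  · rw [eq_top_iff, ← hgen]
    apply IntermediateField.adjoin_le_iff.2
    rintro z (⟨⟨c, d⟩, rfl⟩ | ⟨j, rfl⟩ | ⟨i, rfl⟩)
    · apply IntermediateField.subset_adjoin
      exact Or.inr (Or.inr (Set.mem_iUnion.2
        ⟨c, IntermediateField.subset_adjoin k _ ⟨d, rfl⟩⟩))
    · apply IntermediateField.subset_adjoin
      exact Or.inr (Or.inl ⟨eJ n N r (Sum.inl j), by simp [yy, yJ]⟩)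
    · apply IntermediateField.subset_adjoin
      exact Or.inr (Or.inl ⟨eJ n N r (Sum.inr (Sum.inl i)), by simp [yy, yJ]⟩)

end

end Pool.Agent.X326.TSb
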