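import Pool.Agent.X326.TSb.Schon

/-!
# The function field of the hypersurface
-/

set_option autoImplicit false

universe u

open Pool.Agent.TH214.SD Pool.Agent.TH188.VT

namespace Pool.Agent.X326.TSb

section

variable {k K : Type u} [Field k] [CommRing K] [Algebra k K] {m n N : ℕ} (p r : ℕ)
  (v : Fin N → ℕ) (β₀ : Fin n → ℕ) (β : Fin N → Fin n → ℕ) (a : Fin N → ℕ) (b₀ : k) (b : Fin N → k)
  (g : Fin (N + 1) → Fin m → MvPolynomial (Fin 2) k)
  (s : Fin m → Fin 2 → K) (y : Fin n → K) (x : Fin N → K)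

/-- the coefficients -/
noncomputable def uu (i : Fin (N + 1)) : K := ∏ c, MvPolynomial.aeval (s c) (g i c)

/-- the monomial without private variable -/
noncomputable def tau₀ : K := b₀ • (uu g s 0 * ∏ j, y j ^ β₀ j)

/-- the monomials -/
noncomputable def tau (i : Fin N) : K := b i • (uu g s i.succ * ((∏ j, y j ^ β i j) * x i ^ a i))

/-- the auxiliary functions -/
noncomputable def Lf (l : ℕ) : K :=
  (∑ i ∈ Finset.univ.filter (fun i => l ≤ v i), tau β a b g s y x i ^ p ^ (v i - l)) +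
    if l ≤ r then tau₀ β₀ b₀ g s y ^ p ^ (r - l) else 0

variable {K' : Type u} [CommRing K'] [Algebra k K'] (φ : K →ₐ[k] K')

lemma map_uu (i : Fin (N + 1)) : φ (uu g s i) = uu g (fun c d => φ (s c d)) i := by
  rw [uu, map_prod, uu]
  refine Finset.prod_congr rfl fun c _ => ?_
  exact MvPolynomial.comp_aeval_apply (s c) φ (g i c)

lemma map_tau₀ : φ (tau₀ β₀ b₀ g s y) =
    tau₀ β₀ b₀ g (fun c d => φ (s c d)) (fun j => φ (y j)) := by
  rw [tau₀, map_smul, map_mul, map_prod, map_uu, tau₀]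
  simp only [map_pow]

lemma map_tau (i : Fin N) : φ (tau β a b g s y x i) =
    tau β a b g (fun c d => φ (s c d)) (fun j => φ (y j)) (fun i => φ (x i)) i := by
  rw [tau, map_smul, map_mul, map_mul, map_prod, map_pow, map_uu, tau]
  simp only [map_pow]

lemma map_Lf (l : ℕ) : φ (Lf p r v β₀ β a b₀ b g s y x l) =
    Lf p r v β₀ β a b₀ b g (fun c d => φ (s c d)) (fun j => φ (y j)) (fun i => φ (x i)) l := by
  rw [Lf, map_add, map_sum, Lf]
  congr 1
  · refine Finset.sum_congr rfl fun i _ => ?_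
    rw [map_pow, map_tau]
  · split_ifs
    · rw [map_pow, map_tau₀]
    · exact map_zero φ

lemma tau_congr (x' : Fin N → K) (i : Fin N) (h : x i = x' i) :
    tau β a b g s y x i = tau β a b g s y x' i := by
  rw [tau, tau, h]

lemma tau_zero (i : Fin N) (h : x i = 0) (ha : a i ≠ 0) : tau β a b g s y x i = 0 := by
  rw [tau, h, zero_pow ha, mul_zero, mul_zero, smul_zero]

lemma Lf_rec' [Fact p.Prime] [CharP K p] (l : ℕ) (hl : l ≤ r) :
    Lf p r v β₀ β a b₀ b g s y x l =
    (∑ i ∈ Finset.univ.filter (fun i => v i = l), tau β a b g s y x i) +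
      (if l = r then tau₀ β₀ b₀ g s y else 0) +
      Lf p r v β₀ β a b₀ b g s y x (l + 1) ^ p := by
  have h1 : Finset.univ.filter (fun i => l ≤ v i) =
      Finset.univ.filter (fun i => v i = l) ∪ Finset.univ.filter (fun i => l + 1 ≤ v i) := by
    ext i
    simp only [Finset.mem_filter, Finset.mem_univ, true_and, Finset.mem_union]
    omega
  have h2 : Disjoint (Finset.univ.filter (fun i => v i = l))
      (Finset.univ.filter (fun i => l + 1 ≤ v i)) := by
    rw [Finset.disjoint_left]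
    intro i hi hi'
    simp only [Finset.mem_filter, Finset.mem_univ, true_and] at hi hi'
    omega
  have h4 : ∑ i ∈ Finset.univ.filter (fun i => v i = l),
      tau β a b g s y x i ^ p ^ (v i - l) =
      ∑ i ∈ Finset.univ.filter (fun i => v i = l), tau β a b g s y x i := by
    refine Finset.sum_congr rfl fun i hi => ?_
    rw [(Finset.mem_filter.1 hi).2, Nat.sub_self, pow_zero, pow_one]
  have h5 : ∑ i ∈ Finset.univ.filter (fun i => l + 1 ≤ v i),
      tau β a b g s y x i ^ p ^ (v i - l) =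
      (∑ i ∈ Finset.univ.filter (fun i => l + 1 ≤ v i),
        tau β a b g s y x i ^ p ^ (v i - (l + 1))) ^ p := by
    rw [sum_pow_char p]
    refine Finset.sum_congr rfl fun i hi => ?_
    have h3 := (Finset.mem_filter.1 hi).2
    rw [← pow_mul, ← pow_succ]
    congr 2
    omega
  rw [Lf, h1, Finset.sum_union h2, h4, h5, Lf, add_pow_char, if_pos hl]
  by_cases h6 : l = r
  · rw [if_pos h6, h6, Nat.sub_self, pow_zero, pow_one, if_neg (by omega),
      zero_pow (Fact.out : p.Prime).ne_zero]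
    ring
  · rw [if_neg h6, if_pos (by omega), ← pow_mul, ← pow_succ]
    have h7 : r - (l + 1) + 1 = r - l := by omega
    rw [h7]
    ring

end

section

variable {k K : Type u} [Field k] [Field K] [Algebra k K] {m n N : ℕ} (p r : ℕ)
  (v : Fin N → ℕ) (β₀ : Fin n → ℕ) (β : Fin N → Fin n → ℕ) (a : Fin N → ℕ) (b₀ : k) (b : Fin N → k)
  (g : Fin (N + 1) → Fin m → MvPolynomial (Fin 2) k)
  (s : Fin m → Fin 2 → K) (y : Fin n → K) (x : Fin N → K)

/-- the torus coordinates -/
noncomputable def yJ : JJ n N r → K :=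
  Sum.elim y (Sum.elim x fun l => Lf p r v β₀ β a b₀ b g s y x ((l : ℕ) + 1))

/-- the torus coordinates -/
noncomputable def yy (j : Fin (Fintype.card (JJ n N r))) : K :=
  yJ p r v β₀ β a b₀ b g s y x ((eJ n N r).symm j)

/-- the value of a monomial -/
lemma mon (l : ℕ) (t : Fin N ⊕ Option Bool) :
    ∏ j, Sum.elim (uu g s) (yy p r v β₀ β a b₀ b g s y x) j ^ ex p r β₀ β a l t j =
      (∏ i, uu g s i ^ exU t i) * ∏ j, yJ p r v β₀ β a b₀ b g s y x j ^ exJ p r β₀ β a l t j := by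
  rw [Fintype.prod_sum_type]
  congr 1
  exact Equiv.prod_comp (eJ n N r).symm
    (fun j => yJ p r v β₀ β a b₀ b g s y x j ^ exJ p r β₀ β a l t j)

lemma mon_inl (l : ℕ) (i : Fin N) :
    (∏ i', uu g s i' ^ exU (Sum.inl i) i') *
      ∏ j, yJ p r v β₀ β a b₀ b g s y x j ^ exJ p r β₀ β a l (Sum.inl i) j =
      uu g s i.succ * ((∏ j, y j ^ β i j) * x i ^ a i) := by
  rw [Fintype.prod_sum_type, Fintype.prod_sum_type]
  congr 1
  · rw [Finset.prod_eq_single i.succ]
    · simp [exU]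
    · intro i' _ hi'
      simp [exU, hi']
    · intro h
      exact absurd (Finset.mem_univ _) h
  · congr 1
    · refine Finset.prod_congr rfl fun j _ => ?_
      simp [exJ, yJ]
    · have h1 : ∏ l' : Fin r, yJ p r v β₀ β a b₀ b g s y x (Sum.inr (Sum.inr l')) ^
          exJ p r β₀ β a l (Sum.inl i) (Sum.inr (Sum.inr l')) = 1 :=
        Finset.prod_eq_one fun l' _ => by simp [exJ]
      rw [h1, mul_one, Finset.prod_eq_single i]
      · simp [exJ, yJ]
      · intro i' _ hi'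
        simp [exJ, hi']
      · intro h
        exact absurd (Finset.mem_univ _) h

lemma mon_none (l : ℕ) :
    (∏ i', uu g s i' ^ exU (Sum.inr none) i') *
      ∏ j, yJ p r v β₀ β a b₀ b g s y x j ^ exJ p r β₀ β a l (Sum.inr none) j =
      uu g s 0 * ∏ j, y j ^ β₀ j := by
  rw [Fintype.prod_sum_type, Fintype.prod_sum_type]
  congr 1
  · rw [Finset.prod_eq_single 0]
    · simp [exU]
    · intro i' _ hi'
      simp [exU, hi']
    · intro h
      exact absurd (Finset.mem_univ _) h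
  · have h1 : ∏ l' : Fin r, yJ p r v β₀ β a b₀ b g s y x (Sum.inr (Sum.inr l')) ^
        exJ p r β₀ β a l (Sum.inr none) (Sum.inr (Sum.inr l')) = 1 :=
      Finset.prod_eq_one fun l' _ => by simp [exJ]
    have h2 : ∏ l' : Fin N, yJ p r v β₀ β a b₀ b g s y x (Sum.inr (Sum.inl l')) ^
        exJ p r β₀ β a l (Sum.inr none) (Sum.inr (Sum.inl l')) = 1 :=
      Finset.prod_eq_one fun l' _ => by simp [exJ]
    rw [h1, h2, mul_one, mul_one]
    refine Finset.prod_congr rfl fun j _ => ?_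
    simp [exJ, yJ]

lemma mon_false (l : ℕ) (hl : 0 < l) (hr : l ≤ r) :
    (∏ i', uu g s i' ^ exU (Sum.inr (some false)) i') *
      ∏ j, yJ p r v β₀ β a b₀ b g s y x j ^ exJ p r β₀ β a l (Sum.inr (some false)) j =
      Lf p r v β₀ β a b₀ b g s y x l := by
  rw [Fintype.prod_sum_type, Fintype.prod_sum_type]
  have h0 : ∏ i' : Fin (N + 1), uu g s i' ^ (exU (Sum.inr (some false)) i' : ℤ) = 1 :=
    Finset.prod_eq_one fun i' _ => by simp [exU]
  have h1 : ∏ j : Fin n, yJ p r v β₀ β a b₀ b g s y x (Sum.inl j) ^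
      exJ p r β₀ β a l (Sum.inr (some false)) (Sum.inl j) = 1 :=
    Finset.prod_eq_one fun i' _ => by simp [exJ]
  have h2 : ∏ j : Fin N, yJ p r v β₀ β a b₀ b g s y x (Sum.inr (Sum.inl j)) ^
      exJ p r β₀ β a l (Sum.inr (some false)) (Sum.inr (Sum.inl j)) = 1 :=
    Finset.prod_eq_one fun i' _ => by simp [exJ]
  rw [h0, h1, h2, one_mul, one_mul, one_mul,
    Finset.prod_eq_single (⟨l - 1, by omega⟩ : Fin r)]
  · have h3 : l - 1 + 1 = l := by omega
    simp only [exJ, yJ, Sum.elim_inr]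
    rw [if_pos h3, zpow_one, h3]
  · intro j _ hj
    have h3 : ¬ ((j : ℕ) + 1 = l) := by
      intro h
      apply hj
      apply Fin.ext
      change (j : ℕ) = l - 1
      omega
    simp only [exJ]
    rw [if_neg h3, zpow_zero]
  · intro h
    exact absurd (Finset.mem_univ _) h

lemma mon_true (l : ℕ) (hr : l < r) :
    (∏ i', uu g s i' ^ exU (Sum.inr (some true)) i') *
      ∏ j, yJ p r v β₀ β a b₀ b g s y x j ^ exJ p r β₀ β a l (Sum.inr (some true)) j =
      Lf p r v β₀ β a b₀ b g s y x (l + 1) ^ p := by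
  rw [Fintype.prod_sum_type, Fintype.prod_sum_type]
  have h0 : ∏ i' : Fin (N + 1), uu g s i' ^ (exU (Sum.inr (some true)) i' : ℤ) = 1 :=
    Finset.prod_eq_one fun i' _ => by simp [exU]
  have h1 : ∏ j : Fin n, yJ p r v β₀ β a b₀ b g s y x (Sum.inl j) ^
      exJ p r β₀ β a l (Sum.inr (some true)) (Sum.inl j) = 1 :=
    Finset.prod_eq_one fun i' _ => by simp [exJ]
  have h2 : ∏ j : Fin N, yJ p r v β₀ β a b₀ b g s y x (Sum.inr (Sum.inl j)) ^
      exJ p r β₀ β a l (Sum.inr (some true)) (Sum.inr (Sum.inl j)) = 1 :=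
    Finset.prod_eq_one fun i' _ => by simp [exJ]
  rw [h0, h1, h2, one_mul, one_mul, one_mul, Finset.prod_eq_single (⟨l, hr⟩ : Fin r)]
  · simp only [exJ, yJ, Sum.elim_inr]
    rw [if_pos trivial, zpow_natCast]
  · intro j _ hj
    have h3 : ¬ ((j : ℕ) = l) := fun h => hj (Fin.ext h)
    simp only [exJ]
    rw [if_neg h3, zpow_zero]
  · intro h
    exact absurd (Finset.mem_univ _) h

lemma Lf_top (hr : ∀ i, v i ≤ r) : Lf p r v β₀ β a b₀ b g s y x (r + 1) = 0 := by
  rw [Lf, if_neg (by omega), add_zero]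
  refine Finset.sum_eq_zero fun i hi => ?_
  have h1 := (Finset.mem_filter.1 hi).2
  have h2 := hr i
  omega

/-- the equations hold -/
theorem value_GG [Fact p.Prime] [CharP K p] (hb : ∀ i, b i ≠ 0) (hr : ∀ i, v i ≤ r)
    (h0 : Lf p r v β₀ β a b₀ b g s y x 0 = 0) (l : Fin (r + 1)) :
    value (GG p r v β₀ β a (b₀ ≠ 0) b₀ b l) (uu g s) (yy p r v β₀ β a b₀ b g s y x) = 0 := by
  classical
  have hco : ∀ t : Tm r v (b₀ ≠ 0) l, co b₀ b t.1 ≠ 0 :=
    fun t => co_ne r v (b₀ ≠ 0) b₀ b hb id l t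
  rw [GG, value_lau _ _ hco]
  have h1 : ∀ t : Tm r v (b₀ ≠ 0) l, co b₀ b t.1 • ∏ j, Sum.elim (uu g s)
      (yy p r v β₀ β a b₀ b g s y x) j ^
      exE p r v β₀ β a (b₀ ≠ 0) l t j = (fun t' : Fin N ⊕ Option Bool => co b₀ b t' •
        ((∏ i, uu g s i ^ exU t' i) *
        ∏ j, yJ p r v β₀ β a b₀ b g s y x j ^ exJ p r β₀ β a l t' j)) t.1 := fun t =>
    congrArg (co b₀ b t.1 • ·) (mon p r v β₀ β a b₀ b g s y x l t.1)
  rw [Finset.sum_congr rfl fun t _ => h1 t]
  rw [← Finset.sum_subtype (Finset.univ.filter (cond r v (b₀ ≠ 0) l)) (fun t => by simp)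
    (fun t' : Fin N ⊕ Option Bool => co b₀ b t' • ((∏ i, uu g s i ^ exU t' i) *
        ∏ j, yJ p r v β₀ β a b₀ b g s y x j ^ exJ p r β₀ β a l t' j))]
  rw [Finset.sum_filter, Fintype.sum_sum_type, Fintype.sum_option, Fintype.sum_bool]
  have hl := Nat.lt_succ_iff.1 l.2
  have h2 : ∑ i : Fin N, (if cond r v (b₀ ≠ 0) l (Sum.inl i) then co b₀ b (Sum.inl i) •
      ((∏ i', uu g s i' ^ exU (Sum.inl i) i') *
        ∏ j, yJ p r v β₀ β a b₀ b g s y x j ^ exJ p r β₀ β a l (Sum.inl i) j) else 0) =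
      ∑ i ∈ Finset.univ.filter (fun i => v i = l), tau β a b g s y x i := by
    rw [Finset.sum_filter]
    refine Finset.sum_congr rfl fun i _ => ?_
    rw [mon_inl]
    by_cases h : v i = l
    · rw [if_pos h, if_pos (show cond r v (b₀ ≠ 0) l (Sum.inl i) from h)]
      rfl
    · rw [if_neg h, if_neg (show ¬ cond r v (b₀ ≠ 0) l (Sum.inl i) from h)]
  have h3 : (if cond r v (b₀ ≠ 0) l (Sum.inr none) then co b₀ b (Sum.inr none) •
      ((∏ i', uu g s i' ^ exU (Sum.inr none) i') *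
        ∏ j, yJ p r v β₀ β a b₀ b g s y x j ^ exJ p r β₀ β a l (Sum.inr none) j) else 0) =
      if (l : ℕ) = r then tau₀ β₀ b₀ g s y else 0 := by
    rw [mon_none]
    by_cases h5 : (l : ℕ) = r
    · rw [if_pos h5]
      by_cases h6 : b₀ ≠ 0
      · rw [if_pos (show cond r v (b₀ ≠ 0) l (Sum.inr none) from ⟨h5, h6⟩)]
        rfl
      · rw [if_neg (show ¬ cond r v (b₀ ≠ 0) l (Sum.inr none) from fun h => h6 h.2)]
        rw [not_not] at h6
        rw [tau₀, h6, zero_smul]
    · rw [if_neg h5, if_neg (show ¬ cond r v (b₀ ≠ 0) l (Sum.inr none) from fun h => h5 h.1)]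
  have h4 : (if cond r v (b₀ ≠ 0) l (Sum.inr (some true)) then co b₀ b (Sum.inr (some true)) •
    ((∏ i', uu g s i' ^ exU (Sum.inr (some true)) i') *
      ∏ j, yJ p r v β₀ β a b₀ b g s y x j ^ exJ p r β₀ β a l (Sum.inr (some true)) j) else 0) =
      Lf p r v β₀ β a b₀ b g s y x (l + 1) ^ p := by
    by_cases h5 : (l : ℕ) < r
    · rw [if_pos (show cond r v (b₀ ≠ 0) l (Sum.inr (some true)) from h5),
        mon_true _ _ _ _ _ _ _ _ _ _ _ _ _ h5]
      simp [co]
    · rw [if_neg (show ¬ cond r v (b₀ ≠ 0) l (Sum.inr (some true)) from h5)]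
      have h6 : (l : ℕ) = r := by omega
      rw [h6, Lf_top p r v β₀ β a b₀ b g s y x hr, zero_pow (Fact.out : p.Prime).ne_zero]
  have h7 : (if cond r v (b₀ ≠ 0) l (Sum.inr (some false)) then co b₀ b (Sum.inr (some false)) •
    ((∏ i', uu g s i' ^ exU (Sum.inr (some false)) i') *
      ∏ j, yJ p r v β₀ β a b₀ b g s y x j ^ exJ p r β₀ β a l (Sum.inr (some false)) j) else 0) =
      - Lf p r v β₀ β a b₀ b g s y x l := by
    by_cases h5 : 0 < (l : ℕ)
    · rw [if_pos (show cond r v (b₀ ≠ 0) l (Sum.inr (some false)) from h5),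
        mon_false _ _ _ _ _ _ _ _ _ _ _ _ _ h5 hl]
      simp [co]
    · rw [if_neg (show ¬ cond r v (b₀ ≠ 0) l (Sum.inr (some false)) from h5)]
      have h6 : (l : ℕ) = 0 := by omega
      rw [h6, h0, neg_zero]
  rw [h2, h3, h4, h7, Lf_rec' p r v β₀ β a b₀ b g s y x l hl]
  ring

end

end Pool.Agent.X326.TSb
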