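import Pool.Agent.X326.TSb.Main

/-!
# The equation with coefficients
-/

set_option autoImplicit false

universe u

open MvPolynomial Pool.Agent.W558 AlgebraicGeometry CategoryTheory

namespace Pool.Agent.X326.TSb

section defs

variable {k : Type u} [Field k] {m n N : ℕ}

/-- The product `g 1 (s 1, t 1) * ... * g m (s m, t m) * y ^ β`. -/
noncomputable def coeff (N : ℕ) (β : Fin n → ℕ) (g : Fin m → MvPolynomial (Fin 2) k) :
    MvPolynomial (VV m n N) k :=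
  (∏ l, rename (fun d : Fin 2 => (Sum.inl (l, d) : VV m n N)) (g l)) *
    ∏ j, X (Sum.inr (Sum.inl j)) ^ β j

/-- The polynomial
`c₀ * (g₀ * y ^ β₀) ^ (p ^ r) + ∑ i, c i * (g i * y ^ β i * x i ^ a i) ^ (p ^ v i)`, where `g₀` and
`g i` are products of polynomials in the pairs of variables `s l, t l`. -/
noncomputable def equation (p r : ℕ) (v : Fin N → ℕ) (β₀ : Fin n → ℕ) (β : Fin N → Fin n → ℕ)
    (a : Fin N → ℕ) (c₀ : k) (c : Fin N → k) (g₀ : Fin m → MvPolynomial (Fin 2) k)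
    (g : Fin N → Fin m → MvPolynomial (Fin 2) k) : MvPolynomial (VV m n N) k :=
  C c₀ * coeff N β₀ g₀ ^ p ^ r +
    ∑ i, C (c i) * (coeff N (β i) (g i) * X (Sum.inr (Sum.inr i)) ^ a i) ^ p ^ v i

end defs

section

variable {k : Type u} [Field k] {m n N : ℕ} (p r : ℕ)
  (v : Fin N → ℕ) (β₀ : Fin n → ℕ) (β : Fin N → Fin n → ℕ) (a : Fin N → ℕ) (c₀ b₀ : k)
  (c b : Fin N → k) (g₀ : Fin m → MvPolynomial (Fin 2) k)
  (g : Fin N → Fin m → MvPolynomial (Fin 2) k)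

/-- all the coefficients -/
def gg : Fin (N + 1) → Fin m → MvPolynomial (Fin 2) k := Fin.cons g₀ g

lemma aeval_sP (l : Fin m) : (aeval (sP (k := k) (n := n) (N := N) l)) =
    rename (R := k) (fun d : Fin 2 => (Sum.inl (l, d) : VV m n N)) :=
  MvPolynomial.algHom_ext fun d => by simp [sP]

lemma tau₀_eq : tau₀ β₀ b₀ (gg g₀ g) (sP (k := k) (n := n) (N := N)) yP =
    C b₀ * coeff N β₀ g₀ := by
  rw [tau₀, smul_eq_C_mul, coeff, uu]
  congr 2
  refine Finset.prod_congr rfl fun l _ => ?_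
  rw [aeval_sP]
  rfl

lemma tau_eq (i : Fin N) : tau β a b (gg g₀ g) (sP (k := k) (n := n) (N := N)) yP xP i =
    C (b i) * (coeff N (β i) (g i) * X (Sum.inr (Sum.inr i)) ^ a i) := by
  rw [tau, smul_eq_C_mul, coeff, uu, mul_assoc]
  congr 2
  refine Finset.prod_congr rfl fun l _ => ?_
  rw [aeval_sP]
  rfl

lemma equation_eq (hb₀ : b₀ ^ p ^ r = c₀) (hb : ∀ i, b i ^ p ^ v i = c i) :
    equation p r v β₀ β a c₀ c g₀ g = ff p r v β₀ β a b₀ b (gg g₀ g) := by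
  rw [equation, ff, Lf, Finset.filter_true_of_mem fun i _ => Nat.zero_le _,
    if_pos (Nat.zero_le r), Nat.sub_zero, tau₀_eq, mul_pow, ← C_pow, hb₀, add_comm]
  congr 1
  refine Finset.sum_congr rfl fun i _ => ?_
  rw [Nat.sub_zero, tau_eq, mul_pow (C (b i)), ← C_pow, hb i]

lemma exists_root [Fact p.Prime] [CharP k p] [PerfectField k] (c : k) (e : ℕ) :
    ∃ b : k, b ^ p ^ e = c := by
  have hP : PerfectRing k p := PerfectField.toPerfectRing p
  obtain ⟨b, hb⟩ := (iterateFrobeniusEquiv k p e).surjective c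
  exact ⟨b, by rw [← hb]; rfl⟩

/-- The hypersurface has a resolution of singularities. -/
theorem main' [Fact p.Prime] [CharP k p] [PerfectField k] (h1N : 1 ≤ N) (hN : 2 ≤ N ∨ c₀ ≠ 0)
    (hr : ∀ i, v i ≤ r) (hr' : (∃ i, v i = r) ∨ c₀ ≠ 0)
    (hc : ∀ i, c i ≠ 0) (hg₀ : ∀ l, g₀ l ≠ 0)
    (hg : ∀ i l, g i l ≠ 0) (ha : ∀ i, ¬ p ∣ a i)
    (hf : Prime (equation p r v β₀ β a c₀ c g₀ g)) :
    IsResolvableVariety
      (X := Spec (CommRingCat.of (MvPolynomial (VV m n N) k ⧸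
        Ideal.span {equation p r v β₀ β a c₀ c g₀ g})))
      (Spec.map (CommRingCat.ofHom (algebraMap k _))) := by
  obtain ⟨b₀, hb₀⟩ := exists_root p c₀ r
  choose b hb using fun i => exists_root p (c i) (v i)
  have hp : p.Prime := Fact.out
  have hbn : ∀ i, b i ≠ 0 := fun i h => hc i (by
    rw [← hb i, h, zero_pow (pow_ne_zero _ hp.ne_zero)])
  have hb₀n : c₀ ≠ 0 → b₀ ≠ 0 := fun h h' => h (by
    rw [← hb₀, h', zero_pow (pow_ne_zero _ hp.ne_zero)])
  have h1 := equation_eq p r v β₀ β a c₀ b₀ c b g₀ g hb₀ hb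
  have hgg : ∀ i l, gg g₀ g i l ≠ 0 := by
    intro i l
    refine Fin.cases ?_ (fun i => ?_) i
    · exact hg₀ l
    · exact hg i l
  rw [h1] at hf ⊢
  have h2 : ∃ i, v i = 0 := by
    by_contra hcon
    push Not at hcon
    have hr0 : 0 ≠ r := by
      have h3 := hr ⟨0, h1N⟩
      have h4 := hcon ⟨0, h1N⟩
      omega
    have h3 : ff p r v β₀ β a b₀ b (gg g₀ g) =
        Lf p r v β₀ β a b₀ b (gg g₀ g) sP yP xP 1 ^ p := by
      have h4 := Lf_rec' p r v β₀ β a b₀ b (gg g₀ g) (sP (k := k)) yP xP 0 (Nat.zero_le r)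
      rw [Finset.filter_false_of_mem fun i _ => hcon i, Finset.sum_empty, zero_add,
        if_neg hr0, zero_add] at h4
      exact h4
    rw [h3] at hf
    have h5 := hf.irreducible
    have hp := (Fact.out : p.Prime).two_le
    have h6 : Lf p r v β₀ β a b₀ b (gg g₀ g) (sP (k := k)) yP xP 1 ^ p =
        Lf p r v β₀ β a b₀ b (gg g₀ g) sP yP xP 1 *
          Lf p r v β₀ β a b₀ b (gg g₀ g) sP yP xP 1 ^ (p - 1) := by
      rw [← pow_succ']
      congr 1
      omega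
    rcases h5.isUnit_or_isUnit h6 with h7 | h7
    · exact h5.not_isUnit (h7.pow p)
    · exact h5.not_isUnit (((isUnit_pow_iff (by omega)).1 h7).pow p)
  obtain ⟨i₀, hi₀⟩ := h2
  exact main (hN.imp_right hb₀n) hr (hr'.imp_right hb₀n) hbn hgg ha i₀ hi₀ hf

/-- The hypersurface has a resolution of singularities. -/
theorem main'' [Fact p.Prime] [CharP k p] [PerfectField k] (h1N : 1 ≤ N) (hN : 2 ≤ N ∨ c₀ ≠ 0)
    (hr : ∀ i, v i ≤ r)
    (hc : ∀ i, c i ≠ 0) (hg₀ : ∀ l, g₀ l ≠ 0)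
    (hg : ∀ i l, g i l ≠ 0) (ha : ∀ i, ¬ p ∣ a i)
    (hf : Prime (equation p r v β₀ β a c₀ c g₀ g)) :
    IsResolvableVariety
      (X := Spec (CommRingCat.of (MvPolynomial (VV m n N) k ⧸
        Ideal.span {equation p r v β₀ β a c₀ c g₀ g})))
      (Spec.map (CommRingCat.ofHom (algebraMap k _))) := by
  by_cases h0 : c₀ = 0
  · obtain ⟨i₁, -, hi₁⟩ := Finset.exists_max_image Finset.univ v
      (⟨⟨0, h1N⟩, Finset.mem_univ _⟩ : (Finset.univ : Finset (Fin N)).Nonempty)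
    have h1 : equation p r v β₀ β a c₀ c g₀ g = equation p (v i₁) v β₀ β a c₀ c g₀ g := by
      rw [equation, equation, h0, C_0, zero_mul, zero_mul]
    rw [h1] at hf ⊢
    exact main' p (v i₁) v β₀ β a c₀ c g₀ g h1N hN (fun i => hi₁ i (Finset.mem_univ _))
      (Or.inl ⟨i₁, rfl⟩) hc hg₀ hg ha hf
  · exact main' p r v β₀ β a c₀ c g₀ g h1N hN hr (Or.inr h0) hc hg₀ hg ha hf

end

end Pool.Agent.X326.TSb
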