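import Pool.Agent.X326.TSb.Point
import Pool.Agent.TH214.SD.Main

/-!
# Resolution of the hypersurface
-/

set_option autoImplicit false

universe u

open MvPolynomial Pool.Agent.TH214.SD Pool.Agent.TH188.VT Pool.Agent.W558 AlgebraicGeometry
  CategoryTheory

namespace Pool.Agent.X326.TSb

/-- the variables -/
abbrev VV (m n N : ℕ) : Type := (Fin m × Fin 2) ⊕ (Fin n ⊕ Fin N)

section

variable {k : Type u} [Field k] {m n N : ℕ} (p : ℕ)
  (r : ℕ) (v : Fin N → ℕ) (β₀ : Fin n → ℕ) (β : Fin N → Fin n → ℕ) (a : Fin N → ℕ) (b₀ : k)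
  (b : Fin N → k) (g : Fin (N + 1) → Fin m → MvPolynomial (Fin 2) k)

/-- the variables of the surfaces -/
noncomputable def sP (c : Fin m) (d : Fin 2) : MvPolynomial (VV m n N) k := X (Sum.inl (c, d))

/-- the variables -/
noncomputable def yP (j : Fin n) : MvPolynomial (VV m n N) k := X (Sum.inr (Sum.inl j))

/-- the variables -/
noncomputable def xP (i : Fin N) : MvPolynomial (VV m n N) k := X (Sum.inr (Sum.inr i))

/-- the equation -/
noncomputable def ff : MvPolynomial (VV m n N) k := Lf p r v β₀ β a b₀ b g sP yP xP 0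

variable {p r v β₀ β a b₀ b g}

/-- The hypersurface has a resolution of singularities. -/
theorem main [Fact p.Prime] [CharP k p] [PerfectField k] (hN : 2 ≤ N ∨ b₀ ≠ 0)
    (hr : ∀ i, v i ≤ r) (hr' : (∃ i, v i = r) ∨ b₀ ≠ 0) (hb : ∀ i, b i ≠ 0)
    (hg : ∀ i c, g i c ≠ 0) (ha : ∀ i, ¬ p ∣ a i) (i₀ : Fin N) (hi₀ : v i₀ = 0)
    (hf : Prime (ff p r v β₀ β a b₀ b g)) :
    IsResolvableVariety
      (X := Spec (CommRingCat.of (MvPolynomial (VV m n N) k ⧸ Ideal.span {ff p r v β₀ β a b₀ b g})))
      (Spec.map (CommRingCat.ofHom (algebraMap k _))) := by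
  classical
  have hp : p.Prime := Fact.out
  have ha0 : ∀ i, a i ≠ 0 := fun i h => ha i (h ▸ dvd_zero p)
  have hprime : (Ideal.span {ff p r v β₀ β a b₀ b g}).IsPrime :=
    (Ideal.span_singleton_prime hf.ne_zero).2 hf
  let B := MvPolynomial (VV m n N) k ⧸ Ideal.span {ff p r v β₀ β a b₀ b g}
  have hdom : IsDomain B := Ideal.Quotient.isDomain _
  let K := FractionRing B
  let π : MvPolynomial (VV m n N) k →ₐ[k] B := Ideal.Quotient.mkₐ k _
  let θ : MvPolynomial (VV m n N) k →ₐ[k] K := (IsScalarTower.toAlgHom k B K).comp π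
  let s : Fin m → Fin 2 → K := fun c d => θ (sP c d)
  let y : Fin n → K := fun j => θ (yP j)
  let x : Fin N → K := fun i => θ (xP i)
  have hθ : θ (ff p r v β₀ β a b₀ b g) = 0 := by
    change algebraMap B K (π (ff p r v β₀ β a b₀ b g)) = 0
    have h1 : π (ff p r v β₀ β a b₀ b g) = 0 :=
      Ideal.Quotient.eq_zero_iff_mem.2 (Ideal.subset_span rfl)
    rw [h1, map_zero]
  have h0 : Lf p r v β₀ β a b₀ b g s y x 0 = 0 :=
    (map_Lf p r v β₀ β a b₀ b g sP yP xP θ 0).symm.trans hθ
  -- algebraic independence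
  have hind : AlgebraicIndependent k (Sum.elim (fun q : Fin m × Fin 2 => s q.1 q.2)
      (Sum.elim y fun i : {i : Fin N // i ≠ i₀} => x i)) := by
    obtain ⟨L, _, _, s', y', x', hL, hL0⟩ := exists_point p r v β₀ β a b₀ b g i₀ hb hg ha0 hi₀
    rw [algebraicIndependent_iff_injective_aeval, injective_iff_map_eq_zero]
    intro Q hQ
    let χ : MvPolynomial (VV m n N) k →ₐ[k] L :=
      aeval (Sum.elim (fun q => s' q.1 q.2) (Sum.elim y' x'))
    have hχ : χ (ff p r v β₀ β a b₀ b g) = 0 := by
      rw [ff, map_Lf]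
      have h1 : (fun c d => χ (sP c d)) = s' := by
        funext c d
        simp [χ, sP]
      have h2 : (fun j => χ (yP j)) = y' := by
        funext j
        simp [χ, yP]
      have h3 : (fun i => χ (xP i)) = x' := by
        funext i
        simp [χ, xP]
      rw [h1, h2, h3]
      exact hL0
    let ι : OO m n i₀ → VV m n N := Sum.elim Sum.inl (Sum.elim (fun j => Sum.inr (Sum.inl j))
      fun i => Sum.inr (Sum.inr i.1))
    have h1 : θ (rename ι Q) = 0 := by
      rw [← hQ]
      have h2 : θ.comp (rename ι) = aeval (Sum.elim (fun q : Fin m × Fin 2 => s q.1 q.2)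
          (Sum.elim y fun i : {i : Fin N // i ≠ i₀} => x i)) := by
        apply MvPolynomial.algHom_ext
        rintro (q | j | i)
        · simp [ι, s, sP]
        · simp [ι, y, yP]
        · simp [ι, x, xP]
      rw [← h2]
      rfl
    have h2 : rename ι Q ∈ Ideal.span {ff p r v β₀ β a b₀ b g} := by
      have h3 : algebraMap B K (π (rename ι Q)) = 0 := h1
      have h4 := (map_eq_zero_iff _ (IsFractionRing.injective B K)).1 h3
      exact Ideal.Quotient.eq_zero_iff_mem.1 h4
    obtain ⟨q, hq⟩ := Ideal.mem_span_singleton.1 h2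
    have h3 : χ (rename ι Q) = 0 := by rw [hq, map_mul, hχ, zero_mul]
    apply hL
    rw [map_zero, ← h3]
    have h4 : χ.comp (rename ι) = aeval (Sum.elim (fun q : Fin m × Fin 2 => s' q.1 q.2)
          (Sum.elim y' fun i : {i : Fin N // i ≠ i₀} => x' i)) := by
      apply MvPolynomial.algHom_ext
      rintro (q | j | i) <;> simp [ι, χ]
    rw [← h4]
    rfl
  have hs : AlgebraicIndependent k (fun q : Fin m × Fin 2 => s q.1 q.2) :=
    hind.comp Sum.inl Sum.inl_injective
  have hy : ∀ j, y j ≠ 0 := fun j => hind.ne_zero (Sum.inr (Sum.inl j))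
  have hx : ∀ i, x i ≠ 0 := by
    intro i
    by_cases hi : i = i₀
    · subst hi
      intro hx0
      rw [Lf, Finset.filter_true_of_mem fun i _ => Nat.zero_le _,
        ← Finset.add_sum_erase _ _ (Finset.mem_univ i), tau_zero β a b g s y x i hx0 (ha0 i),
        zero_pow (pow_ne_zero _ hp.ne_zero), zero_add, if_pos (Nat.zero_le r)] at h0
      refine sum_ne' p β₀ β a b₀ b g i s y x hind hp.ne_zero hb hg ha0 (Finset.univ.erase i) ?_
        (Finset.notMem_erase _ _) (fun j => v j - 0) _ h0
      rcases hN with hN | hN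
      · left
        rw [← Finset.card_pos, Finset.card_erase_of_mem (Finset.mem_univ _), Finset.card_univ,
          Fintype.card_fin]
        omega
      · exact Or.inr hN
    · exact hind.ne_zero (Sum.inr (Sum.inr ⟨i, hi⟩))
  have hL : ∀ l : Fin r, Lf p r v β₀ β a b₀ b g s y x ((l : ℕ) + 1) ≠ 0 := by
    intro l
    rw [Lf, if_pos (show (l : ℕ) + 1 ≤ r from l.2)]
    apply sum_ne' p β₀ β a b₀ b g i₀ s y x hind hp.ne_zero hb hg ha0
    · rcases hr' with ⟨i₁, hi₁⟩ | h
      · left
        refine ⟨i₁, Finset.mem_filter.2 ⟨Finset.mem_univ _, ?_⟩⟩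
        have := l.2
        omega
      · exact Or.inr h
    · intro h
      have h1 := (Finset.mem_filter.1 h).2
      omega
  -- generation
  have hmem : ∀ q : VV m n N, θ (X q) ∈ (Set.range fun q : Fin m × Fin 2 => s q.1 q.2) ∪
      (Set.range y ∪ Set.range x) := by
    rintro (q | j | i)
    · exact Or.inl ⟨q, rfl⟩
    · exact Or.inr (Or.inl ⟨j, rfl⟩)
    · exact Or.inr (Or.inr ⟨i, rfl⟩)
  have hgen : IntermediateField.adjoin k ((Set.range fun q : Fin m × Fin 2 => s q.1 q.2) ∪
      (Set.range y ∪ Set.range x)) = ⊤ := by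
    rw [eq_top_iff]
    rintro z -
    have h1 : ∀ c : B, algebraMap B K c ∈ IntermediateField.adjoin k
        ((Set.range fun q : Fin m × Fin 2 => s q.1 q.2) ∪ (Set.range y ∪ Set.range x)) := by
      intro c
      obtain ⟨P, rfl⟩ := Ideal.Quotient.mk_surjective c
      change θ P ∈ _
      induction P using MvPolynomial.induction_on with
      | C c => 
        have h2 : θ (C c) = algebraMap k K c := θ.commutes c
        rw [h2]
        exact IntermediateField.algebraMap_mem _ _
      | add P Q hP hQ =>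
        rw [map_add]
        exact add_mem hP hQ
      | mul_X P q hP =>
        rw [map_mul]
        exact mul_mem hP (IntermediateField.subset_adjoin k _ (hmem q))
    obtain ⟨c, d, hd, rfl⟩ := IsFractionRing.div_surjective (A := B) z
    exact IntermediateField.div_mem _ (h1 c) (h1 d)
  have hW := isWildCover p r v β₀ β a b₀ b g s y x hb ha hr i₀ hi₀ h0 hL hy hx
    (uu_ne g s hs hg) hind hgen
  have hprod : ∀ q : VV m n N, IsProduct (EE (k := k) s)
      (yy p r v β₀ β a b₀ b g s y x) (θ (X q)) := by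
    rintro (⟨c, d⟩ | j | i)
    · have hm : s c d ∈ EE (k := k) s c := IntermediateField.subset_adjoin k _ ⟨d, rfl⟩
      refine ⟨Pi.mulSingle (M := fun c' => EE (k := k) s c') c ⟨s c d, hm⟩, fun _ => 0, ?_, ?_⟩
      · intro c'
        by_cases h : c' = c
        · subst h
          rw [Pi.mulSingle_eq_same]
          intro h1
          exact hind.ne_zero (Sum.inl (c', d)) (congrArg (fun e : EE (k := k) s c' => (e : K)) h1)
        · rw [Pi.mulSingle_eq_of_ne h]
          exact one_ne_zero
      · have h1 : ∏ j, yy p r v β₀ β a b₀ b g s y x j ^ ((fun _ => 0 : _ → ℤ) j) = 1 :=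
          Finset.prod_eq_one fun j _ => zpow_zero _
        rw [h1, mul_one, Finset.prod_eq_single c]
        · rw [Pi.mulSingle_eq_same]
          rfl
        · intro c' _ hc'
          rw [Pi.mulSingle_eq_of_ne hc']
          rfl
        · intro h
          exact absurd (Finset.mem_univ _) h
    · refine ⟨fun _ => 1, Pi.single (eJ n N r (Sum.inl j)) 1, fun _ => one_ne_zero, ?_⟩
      have h1 : ∏ i : Fin m, ((1 : EE (k := k) s i) : K) = 1 := Finset.prod_eq_one fun j _ => rfl
      rw [h1, one_mul, Finset.prod_eq_single (eJ n N r (Sum.inl j))]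
      · simp only [Pi.single_eq_same, zpow_one, yy, Equiv.symm_apply_apply]
        rfl
      · intro j' _ hj'
        rw [Pi.single_eq_of_ne hj', zpow_zero]
      · intro h
        exact absurd (Finset.mem_univ _) h
    · refine ⟨fun _ => 1, Pi.single (eJ n N r (Sum.inr (Sum.inl i))) 1,
        fun _ => one_ne_zero, ?_⟩
      have h1 : ∏ i : Fin m, ((1 : EE (k := k) s i) : K) = 1 := Finset.prod_eq_one fun j _ => rfl
      rw [h1, one_mul, Finset.prod_eq_single (eJ n N r (Sum.inr (Sum.inl i)))]
      · simp only [Pi.single_eq_same, zpow_one, yy, Equiv.symm_apply_apply]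
        rfl
      · intro j' _ hj'
        rw [Pi.single_eq_of_ne hj', zpow_zero]
      · intro h
        exact absurd (Finset.mem_univ _) h
  let S : Finset B := Finset.univ.image fun q : VV m n N => π (X q)
  have hS : ∀ c ∈ S, IsProduct (EE (k := k) s) (yy p r v β₀ β a b₀ b g s y x)
      (algebraMap B K c) := by
    intro c hc
    obtain ⟨q, -, rfl⟩ := Finset.mem_image.1 hc
    exact hprod q
  have hadj : Algebra.adjoin k (S : Set B) = ⊤ := by
    have h1 : (S : Set B) = π '' (Set.range X) := by
      ext c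
      simp only [S, Finset.coe_image, Finset.coe_univ, Set.image_univ, Set.mem_range,
        Set.mem_image, exists_exists_eq_and]
    rw [h1, ← AlgHom.map_adjoin, MvPolynomial.adjoin_range_X, Algebra.map_top]
    exact (AlgHom.range_eq_top _).2 Ideal.Quotient.mk_surjective
  have hfin : Algebra.FiniteType k B :=
    Algebra.FiniteType.of_surjective π Ideal.Quotient.mk_surjective
  exact resolvable (fun S _ v hv => wild_models hW S v hv) B S hS fun c => by
    have h1 : c ∈ Algebra.adjoin k (S : Set B) := hadj ▸ Algebra.mem_top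
    exact isIntegral_algebraMap (x := (⟨c, h1⟩ : Algebra.adjoin k (S : Set B)))

end

end Pool.Agent.X326.TSb
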