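import Pool.Agent.X326.TSb.Cover

/-!
# Sums of separated monomials do not vanish; points of the hypersurface
-/

set_option autoImplicit false

universe u

open MvPolynomial

namespace Pool.Agent.X326.TSb

section

variable {k : Type u} [Field k] {m n N : ℕ} (p r : ℕ)
  (v : Fin N → ℕ) (β₀ : Fin n → ℕ) (β : Fin N → Fin n → ℕ) (a : Fin N → ℕ) (b₀ : k) (b : Fin N → k)
  (g : Fin (N + 1) → Fin m → MvPolynomial (Fin 2) k) (i₀ : Fin N)

/-- the independent variables -/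
abbrev OO (m n : ℕ) {N : ℕ} (i₀ : Fin N) : Type := (Fin m × Fin 2) ⊕ (Fin n ⊕ {i : Fin N // i ≠ i₀})

/-- the variables of the surfaces -/
noncomputable def sO (c : Fin m) (d : Fin 2) : MvPolynomial (OO m n i₀) k := X (Sum.inl (c, d))

/-- the variables -/
noncomputable def yO (j : Fin n) : MvPolynomial (OO m n i₀) k := X (Sum.inr (Sum.inl j))

/-- the variables -/
noncomputable def xO (i : Fin N) : MvPolynomial (OO m n i₀) k :=
  if h : i ≠ i₀ then X (Sum.inr (Sum.inr ⟨i, h⟩)) else 0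

lemma xO_of_ne {i : Fin N} (h : i ≠ i₀) :
    (xO i₀ i : MvPolynomial (OO m n i₀) k) = X (Sum.inr (Sum.inr ⟨i, h⟩)) := by
  rw [xO, dif_pos h]

lemma tau_ne {K : Type u} [CommRing K] [IsDomain K] [Algebra k K] (s : Fin m → Fin 2 → K)
    (y : Fin n → K) (x : Fin N → K) (i : Fin N) (hb : b i ≠ 0) (hU : uu g s i.succ ≠ 0)
    (hy : ∀ j, y j ≠ 0) (hx : x i ≠ 0) : tau β a b g s y x i ≠ 0 := by
  rw [tau, Algebra.smul_def]
  refine mul_ne_zero ?_ (mul_ne_zero hU (mul_ne_zero ?_ (pow_ne_zero _ hx)))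
  · intro h
    exact hb ((map_eq_zero_iff _ (algebraMap k K).injective).1 h)
  · exact Finset.prod_ne_zero_iff.2 fun j _ => pow_ne_zero _ (hy j)

lemma tau₀_ne {K : Type u} [CommRing K] [IsDomain K] [Algebra k K] (s : Fin m → Fin 2 → K)
    (y : Fin n → K) (hb : b₀ ≠ 0) (hU : uu g s 0 ≠ 0) (hy : ∀ j, y j ≠ 0) :
    tau₀ β₀ b₀ g s y ≠ 0 := by
  rw [tau₀, Algebra.smul_def]
  refine mul_ne_zero ?_ (mul_ne_zero hU ?_)
  · intro h
    exact hb ((map_eq_zero_iff _ (algebraMap k K).injective).1 h)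
  · exact Finset.prod_ne_zero_iff.2 fun j _ => pow_ne_zero _ (hy j)

lemma uu_sO_ne (hg : ∀ i c, g i c ≠ 0) (i : Fin (N + 1)) :
    uu g (sO (k := k) (n := n) i₀) i ≠ 0 := by
  rw [uu]
  refine Finset.prod_ne_zero_iff.2 fun c _ => ?_
  have h1 : Function.Injective (fun d : Fin 2 => (Sum.inl (c, d) : OO m n i₀)) := by
    intro d d' h
    exact (Prod.mk.inj (Sum.inl_injective h)).2
  have h2 := (rename_injective (R := k) _ h1).ne (hg i c)
  rw [map_zero] at h2
  have h3 : (aeval (sO (k := k) (n := n) i₀ c)) =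
      rename (R := k) (fun d : Fin 2 => (Sum.inl (c, d) : OO m n i₀)) :=
    MvPolynomial.algHom_ext fun d => by simp [sO]
  rw [h3]
  exact h2

theorem sum_ne (hp : p ≠ 0) (hb : ∀ i, b i ≠ 0) (hg : ∀ i c, g i c ≠ 0) (ha : ∀ i, a i ≠ 0)
    (S : Finset (Fin N)) (hS : S.Nonempty ∨ b₀ ≠ 0) (hi₀ : i₀ ∉ S) (e : Fin N → ℕ) (e₀ : ℕ) :
    (∑ i ∈ S, tau β a b g (sO (k := k) i₀) (yO i₀) (xO i₀) i ^ (p ^ e i)) +
      tau₀ β₀ b₀ g (sO (k := k) i₀) (yO i₀) ^ (p ^ e₀) ≠ 0 := by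
  classical
  by_cases hb₀ : b₀ ≠ 0
  · -- specialize all `x i` to `0`
    intro h
    let ψ : MvPolynomial (OO m n i₀) k →ₐ[k] MvPolynomial (OO m n i₀) k :=
      aeval (Sum.elim (fun q => X (Sum.inl q)) (Sum.elim (fun j => X (Sum.inr (Sum.inl j)))
        fun i => 0))
    have hs : ∀ c d, ψ (sO i₀ c d) = sO i₀ c d := fun c d => by simp [ψ, sO]
    have hy : ∀ j, ψ (yO i₀ j) = yO i₀ j := fun j => by simp [ψ, yO]
    have hx : ∀ i ∈ S, ψ (xO i₀ i) = 0 := by
      intro i hi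
      have h1 : i ≠ i₀ := fun h => hi₀ (h ▸ hi)
      rw [xO_of_ne i₀ h1]
      simp [ψ]
    have h2 := congrArg ψ h
    rw [map_add, map_sum, map_zero, Finset.sum_eq_zero, zero_add] at h2
    · rw [map_pow, map_tau₀] at h2
      simp only [hs, hy] at h2
      exact tau₀_ne β₀ b₀ g _ _ hb₀ (uu_sO_ne g i₀ hg 0) (fun j => X_ne_zero _)
        (eq_zero_of_pow_eq_zero h2)
    · intro i hi
      rw [map_pow, map_tau, tau_zero β a b g _ _ _ i (hx i hi) (ha i),
        zero_pow (pow_ne_zero _ hp)]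
  · have hS' : S.Nonempty := hS.resolve_right hb₀
    rw [not_not] at hb₀
    have h0 : tau₀ β₀ b₀ g (sO (k := k) i₀) (yO i₀) = 0 := by rw [tau₀, hb₀, zero_smul]
    rw [h0, zero_pow (pow_ne_zero _ hp), add_zero]
    obtain ⟨i₁, hi₁⟩ := hS'
    have h10 : i₁ ≠ i₀ := fun h => hi₀ (h ▸ hi₁)
    intro h
    let ψ : MvPolynomial (OO m n i₀) k →ₐ[k] MvPolynomial (OO m n i₀) k :=
      aeval (Sum.elim (fun q => X (Sum.inl q)) (Sum.elim (fun j => X (Sum.inr (Sum.inl j)))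
        fun i => if i.1 = i₁ then X (Sum.inr (Sum.inr i)) else 0))
    have hs : ∀ c d, ψ (sO i₀ c d) = sO i₀ c d := fun c d => by simp [ψ, sO]
    have hy : ∀ j, ψ (yO i₀ j) = yO i₀ j := fun j => by simp [ψ, yO]
    have hx : ∀ i ∈ S, i ≠ i₁ → ψ (xO i₀ i) = 0 := by
      intro i hi hne
      have h1 : i ≠ i₀ := fun h => hi₀ (h ▸ hi)
      rw [xO_of_ne i₀ h1]
      simp [ψ, hne]
    have hx1 : ψ (xO i₀ i₁) = xO i₀ i₁ := by
      rw [xO_of_ne i₀ h10]
      simp [ψ]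
    have h2 := congrArg ψ h
    rw [map_sum, map_zero, Finset.sum_eq_single i₁] at h2
    · rw [map_pow, map_tau] at h2
      simp only [hs, hy] at h2
      have h3 := eq_zero_of_pow_eq_zero h2
      rw [tau_congr β a b g _ _ _ (xO i₀) i₁ hx1] at h3
      refine tau_ne β a b g _ _ _ i₁ (hb i₁) (uu_sO_ne g i₀ hg i₁.succ) (fun j => X_ne_zero _) ?_ h3
      rw [xO_of_ne i₀ h10]
      exact X_ne_zero _
    · intro i hi hne
      rw [map_pow, map_tau, tau_zero β a b g _ _ _ i (hx i hi hne) (ha i),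
        zero_pow (pow_ne_zero _ hp)]
    · intro h4
      exact absurd hi₁ h4

/-- The sums do not vanish in a field which contains the independent variables. -/
theorem sum_ne' {K : Type u} [Field K] [Algebra k K] (s : Fin m → Fin 2 → K)
    (y : Fin n → K) (x : Fin N → K) (hind : AlgebraicIndependent k
      (Sum.elim (fun q : Fin m × Fin 2 => s q.1 q.2)
      (Sum.elim y fun i : {i : Fin N // i ≠ i₀} => x i))) (hp : p ≠ 0)
    (hb : ∀ i, b i ≠ 0) (hg : ∀ i c, g i c ≠ 0) (ha : ∀ i, a i ≠ 0) (S : Finset (Fin N))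
    (hS : S.Nonempty ∨ b₀ ≠ 0) (hi₀ : i₀ ∉ S) (e : Fin N → ℕ) (e₀ : ℕ) :
    (∑ i ∈ S, tau β a b g s y x i ^ (p ^ e i)) + tau₀ β₀ b₀ g s y ^ (p ^ e₀) ≠ 0 := by
  intro h
  apply sum_ne p β₀ β a b₀ b g i₀ hp hb hg ha S hS hi₀ e e₀
  apply hind
  have h1 : (fun (c : Fin m) (d : Fin 2) => aeval (Sum.elim (fun q : Fin m × Fin 2 => s q.1 q.2)
      (Sum.elim y fun i : {i : Fin N // i ≠ i₀} => x i)) (sO i₀ c d : MvPolynomial _ k)) = s := by
    funext c d
    simp [sO]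
  have h2 : (fun (j : Fin n) => aeval (Sum.elim (fun q : Fin m × Fin 2 => s q.1 q.2)
      (Sum.elim y fun i : {i : Fin N // i ≠ i₀} => x i)) (yO i₀ j : MvPolynomial _ k)) = y := by
    funext j
    simp [yO]
  rw [map_zero, map_add, map_sum, ← h, map_pow, map_tau₀, h1, h2]
  congr 1
  refine Finset.sum_congr rfl fun i hi => ?_
  have hi' : i ≠ i₀ := fun h => hi₀ (h ▸ hi)
  rw [map_pow, map_tau, h1, h2]
  congr 1
  apply tau_congr
  rw [xO_of_ne i₀ hi']
  simp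

lemma uu_ne {K : Type u} [Field K] [Algebra k K] (s : Fin m → Fin 2 → K)
    (hs : AlgebraicIndependent k (fun q : Fin m × Fin 2 => s q.1 q.2))
    (hg : ∀ i c, g i c ≠ 0) (i : Fin (N + 1)) : uu g s i ≠ 0 := by
  rw [uu]
  refine Finset.prod_ne_zero_iff.2 fun c _ => ?_
  have h1 : AlgebraicIndependent k (s c) :=
    hs.comp (fun d => (c, d)) (Prod.mk_right_injective c)
  intro h
  exact hg i c (h1 (by rw [h, map_zero]))

/-- There is a point of the hypersurface with independent coordinates. -/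
theorem exists_point [Fact p.Prime] (hb : ∀ i, b i ≠ 0) (hg : ∀ i c, g i c ≠ 0)
    (ha : ∀ i, a i ≠ 0) (hv : v i₀ = 0) :
    ∃ (L : Type u) (_ : Field L) (_ : Algebra k L) (s : Fin m → Fin 2 → L)
      (y : Fin n → L) (x : Fin N → L), AlgebraicIndependent k
      (Sum.elim (fun q : Fin m × Fin 2 => s q.1 q.2)
      (Sum.elim y fun i : {i : Fin N // i ≠ i₀} => x i)) ∧
      Lf p r v β₀ β a b₀ b g s y x 0 = 0 := by
  classical
  let F := FractionRing (MvPolynomial (OO m n i₀) k)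
  let L := AlgebraicClosure F
  let φ : MvPolynomial (OO m n i₀) k →ₐ[k] L :=
    (IsScalarTower.toAlgHom k F L).comp (IsScalarTower.toAlgHom k (MvPolynomial (OO m n i₀) k) F)
  have hφ : Function.Injective φ :=
    (algebraMap F L).injective.comp (IsFractionRing.injective (MvPolynomial (OO m n i₀) k) F)
  let s : Fin m → Fin 2 → L := fun c d => φ (sO i₀ c d)
  let y : Fin n → L := fun j => φ (yO i₀ j)
  let x₀ : Fin N → L := fun i => φ (xO i₀ i)
  let A : L := b i₀ • (uu g s i₀.succ * ∏ j, y j ^ β i₀ j)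
  let R : L := (∑ i ∈ Finset.univ.erase i₀, tau β a b g s y x₀ i ^ (p ^ v i)) +
    tau₀ β₀ b₀ g s y ^ p ^ r
  obtain ⟨ξ, hξ⟩ := IsAlgClosed.exists_pow_nat_eq (-R / A) (Nat.pos_of_ne_zero (ha i₀))
  let x : Fin N → L := fun i => if i = i₀ then ξ else x₀ i
  have hind : AlgebraicIndependent k
      (Sum.elim (fun q : Fin m × Fin 2 => s q.1 q.2)
      (Sum.elim y fun i : {i : Fin N // i ≠ i₀} => x i)) := by
    have h1 := (MvPolynomial.algebraicIndependent_X (OO m n i₀) k).map' hφ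
    convert! h1 using 1
    funext q
    rcases q with q | j | i
    · rfl
    · rfl
    · change (if i.1 = i₀ then ξ else φ (xO i₀ i.1)) = φ (X (Sum.inr (Sum.inr i)))
      rw [if_neg i.2, xO_of_ne i₀ i.2]
  have hs : AlgebraicIndependent k (fun q : Fin m × Fin 2 => s q.1 q.2) :=
    hind.comp Sum.inl Sum.inl_injective
  have hA : A ≠ 0 := by
    change b i₀ • (uu g s i₀.succ * ∏ j, y j ^ β i₀ j) ≠ 0
    rw [Algebra.smul_def]
    refine mul_ne_zero ?_ (mul_ne_zero (uu_ne g s hs hg i₀.succ) ?_)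
    · exact (map_ne_zero _).2 (hb i₀)
    · exact Finset.prod_ne_zero_iff.2 fun j _ => pow_ne_zero _
        (hind.ne_zero (Sum.inr (Sum.inl j)))
  refine ⟨L, inferInstance, inferInstance, s, y, x, hind, ?_⟩
  rw [Lf, Finset.filter_true_of_mem fun i _ => Nat.zero_le _,
    ← Finset.add_sum_erase _ _ (Finset.mem_univ i₀), if_pos (Nat.zero_le r)]
  have h1 : ∑ i ∈ Finset.univ.erase i₀, tau β a b g s y x i ^ (p ^ (v i - 0)) =
      ∑ i ∈ Finset.univ.erase i₀, tau β a b g s y x₀ i ^ (p ^ v i) := by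
    refine Finset.sum_congr rfl fun i hi => ?_
    rw [Nat.sub_zero, tau_congr β a b g s y x x₀ i]
    exact if_neg (Finset.ne_of_mem_erase hi)
  have h2 : tau β a b g s y x i₀ ^ (p ^ (v i₀ - 0)) = A * ξ ^ a i₀ := by
    rw [hv, Nat.sub_zero, pow_zero, pow_one, tau]
    have h3 : x i₀ = ξ := if_pos rfl
    rw [h3, ← mul_assoc, smul_mul_assoc]
  rw [h1, h2, hξ, mul_div_cancel₀ _ hA, Nat.sub_zero]
  change -R + _ + _ = 0
  rw [add_assoc]
  exact neg_add_cancel R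

end

end Pool.Agent.X326.TSb
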