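import Pool.Agent.X326.TSb.Emb

/-!
# The schön system of a sum of `p`-powers of separated monomials
-/

set_option autoImplicit false

universe u

open Pool.Agent.TH214.SD

namespace Pool.Agent.X326.TSb

/-- the torus variables -/
abbrev JJ (n N r : ℕ) : Type := Fin n ⊕ (Fin N ⊕ Fin r)

/-- numbering of the torus variables -/
noncomputable def eJ (n N r : ℕ) : JJ n N r ≃ Fin (Fintype.card (JJ n N r)) :=
  Fintype.equivFin _

section

variable {n N : ℕ} (p r : ℕ) (v : Fin N → ℕ) (β₀ : Fin n → ℕ) (β : Fin N → Fin n → ℕ)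
  (a : Fin N → ℕ) (Z : Prop)

/-- the terms of the equation `l` -/
def cond (l : ℕ) : Fin N ⊕ Option Bool → Prop
  | Sum.inl i => v i = l
  | Sum.inr none => l = r ∧ Z
  | Sum.inr (some false) => 0 < l
  | Sum.inr (some true) => l < r

/-- the type of the terms -/
abbrev Tm (l : ℕ) : Type := {t : Fin N ⊕ Option Bool // cond r v Z l t}

noncomputable instance (l : ℕ) : Fintype (Tm r v Z l) := by
  classical
  exact Subtype.fintype _

/-- the exponents of the torus variables -/
def exJ (l : ℕ) : Fin N ⊕ Option Bool → JJ n N r → ℤ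
  | Sum.inl i, Sum.inl j => β i j
  | Sum.inl i, Sum.inr (Sum.inl i') => if i' = i then a i else 0
  | Sum.inl _, Sum.inr (Sum.inr _) => 0
  | Sum.inr none, Sum.inl j => β₀ j
  | Sum.inr none, Sum.inr _ => 0
  | Sum.inr (some _), Sum.inl _ => 0
  | Sum.inr (some _), Sum.inr (Sum.inl _) => 0
  | Sum.inr (some false), Sum.inr (Sum.inr j) => if (j : ℕ) + 1 = l then 1 else 0
  | Sum.inr (some true), Sum.inr (Sum.inr j) => if (j : ℕ) = l then p else 0

/-- the exponents of the coefficients -/
def exU : Fin N ⊕ Option Bool → Fin (N + 1) → ℤ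
  | Sum.inl i, i' => if i' = i.succ then 1 else 0
  | Sum.inr none, i' => if i' = 0 then 1 else 0
  | Sum.inr (some _), _ => 0

/-- the exponents -/
noncomputable def ex (l : ℕ) (t : Fin N ⊕ Option Bool) :
    Fin (N + 1) ⊕ Fin (Fintype.card (JJ n N r)) → ℤ :=
  Sum.elim (exU t) fun j => exJ p r β₀ β a l t ((eJ n N r).symm j)

lemma ex_inr (l : ℕ) (t : Fin N ⊕ Option Bool) (j : JJ n N r) :
    ex p r β₀ β a l t (Sum.inr (eJ n N r j)) = exJ p r β₀ β a l t j := by
  simp [ex]

lemma ex_inj (l : ℕ) (hl : l ≤ r) :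
    Function.Injective fun t : Tm r v Z l => ex p r β₀ β a l t.1 := by
  rintro ⟨t, ht⟩ ⟨t', ht'⟩ h
  have hU : exU t = exU t' := by
    funext i
    exact congrFun h (Sum.inl i)
  have hJ : ∀ j, exJ p r β₀ β a l t j = exJ p r β₀ β a l t' j := by
    intro j
    rw [← ex_inr, ← ex_inr]
    exact congrFun h _
  apply Subtype.ext
  rcases t with i | _ | _ | _ <;> rcases t' with i' | _ | _ | _
  · have h1 := congrFun hU i.succ
    simp only [exU, if_true] at h1
    by_cases h2 : i.succ = i'.succ
    · exact congrArg Sum.inl (Fin.succ_injective _ h2)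
    · rw [if_neg h2] at h1
      exact absurd h1 one_ne_zero
  · have h1 := congrFun hU i.succ
    simp [exU] at h1
  · have h1 := congrFun hU i.succ
    simp [exU] at h1
  · have h1 := congrFun hU i.succ
    simp [exU] at h1
  · have h1 := congrFun hU i'.succ
    simp [exU] at h1
  · rfl
  · have h1 := congrFun hU 0
    simp [exU] at h1
  · have h1 := congrFun hU 0
    simp [exU] at h1
  · have h1 := congrFun hU i'.succ
    simp [exU] at h1
  · have h1 := congrFun hU 0
    simp [exU] at h1
  · rfl
  · exfalso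
    have h0 : 0 < l := ht
    have h1 := hJ (Sum.inr (Sum.inr ⟨l - 1, by omega⟩))
    simp only [exJ] at h1
    rw [if_pos (by omega), if_neg (by omega)] at h1
    exact one_ne_zero h1
  · have h1 := congrFun hU i'.succ
    simp [exU] at h1
  · have h1 := congrFun hU 0
    simp [exU] at h1
  · exfalso
    have h0 : 0 < l := ht'
    have h1 := hJ (Sum.inr (Sum.inr ⟨l - 1, by omega⟩))
    simp only [exJ] at h1
    rw [if_neg (by omega), if_pos (by omega)] at h1
    exact zero_ne_one h1
  · rfl

/-- the exponents, as an embedding -/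
noncomputable def exE (l : Fin (r + 1)) :
    Tm r v Z l ↪ (Fin (N + 1) ⊕ Fin (Fintype.card (JJ n N r)) → ℤ) :=
  ⟨fun t => ex p r β₀ β a l t.1, ex_inj p r v β₀ β a Z l (Nat.lt_succ_iff.1 l.2)⟩

variable {k : Type u} [Field k] (b₀ : k) (b : Fin N → k)

/-- the coefficients -/
def co : Fin N ⊕ Option Bool → k
  | Sum.inl i => b i
  | Sum.inr none => b₀
  | Sum.inr (some false) => -1
  | Sum.inr (some true) => 1

lemma co_ne (hb : ∀ i, b i ≠ 0) (hb₀ : Z → b₀ ≠ 0) (l : ℕ) (t : Tm r v Z l) :
    co b₀ b t.1 ≠ 0 := by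
  obtain ⟨t, ht⟩ := t
  rcases t with i | _ | _ | _
  · exact hb i
  · exact hb₀ ht.2
  · exact neg_ne_zero.2 one_ne_zero
  · exact one_ne_zero

/-- the equations -/
noncomputable def GG (l : Fin (r + 1)) :
    (Fin (N + 1) ⊕ Fin (Fintype.card (JJ n N r)) → ℤ) →₀ k :=
  lau (exE p r v β₀ β a Z l) fun t => co b₀ b t.1

/-- a term which has no derivative with respect to the private variables -/
def Bad : Fin N ⊕ Option Bool → Prop
  | Sum.inl _ => False
  | Sum.inr none => True
  | Sum.inr (some false) => False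
  | Sum.inr (some true) => True

lemma bad_unique (l : ℕ) (t t' : Tm r v Z l) (ht : Bad t.1) (ht' : Bad t'.1) : t = t' := by
  obtain ⟨t, h1⟩ := t
  obtain ⟨t', h2⟩ := t'
  apply Subtype.ext
  rcases t with i | _ | _ | _ <;> rcases t' with i' | _ | _ | _ <;>
    simp only [Bad, cond] at ht ht' h1 h2
  · rfl
  · omega
  · omega
  · rfl

theorem schon [CharP k p] (hb : ∀ i, b i ≠ 0) (hb₀ : Z → b₀ ≠ 0) (ha : ∀ i, ¬ p ∣ a i)
    (hv : ∃ i, v i = 0) :
    SchonEquations (GG p r v β₀ β a Z b₀ b) (r + 1) := by
  classical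
  intro w z hz h0
  have hchar : CharP (AlgebraicClosure k) p := charP_of_injective_algebraMap
    (algebraMap k (AlgebraicClosure k)).injective p
  have hco : ∀ l : Fin (r + 1), ∀ t : Tm r v Z l, co b₀ b t.1 ≠ 0 :=
    fun l t => co_ne r v Z b₀ b hb hb₀ l t
  have hmon : ∀ e : Fin (N + 1) ⊕ Fin (Fintype.card (JJ n N r)) → ℤ, ∏ j, z j ^ e j ≠ 0 :=
    fun e => Finset.prod_ne_zero_iff.2 fun j _ => zpow_ne_zero _ (hz j)
  -- the distinguished columns
  have key : ∀ l : Fin (r + 1), ∃ j : JJ n N r,
      initialGradient (GG p r v β₀ β a Z b₀ b l) w z (eJ n N r j) ≠ 0 ∧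
      ∀ l' : Fin (r + 1), l' ≠ l →
        initialGradient (GG p r v β₀ β a Z b₀ b l') w z (eJ n N r j) = 0 := by
    intro l
    have hne : Nonempty (Tm r v Z l) := by
      by_cases hl : 0 < (l : ℕ)
      · exact ⟨⟨Sum.inr (some false), hl⟩⟩
      · obtain ⟨i, hi⟩ := hv
        exact ⟨⟨Sum.inl i, by
          change v i = (l : ℕ)
          omega⟩⟩
    have hm := mins_nonempty (exE p r v β₀ β a Z l) w
    have hz0 := h0 l
    rw [GG, initialValue_lau _ _ (hco l)] at hz0
    -- a minimal term which is not bad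
    have hex : ∃ t ∈ mins (exE p r v β₀ β a Z l) w, ¬ Bad t.1 := by
      by_contra hcon
      push Not at hcon
      obtain ⟨t0, ht0⟩ := hm
      have hs : mins (exE p r v β₀ β a Z l) w = {t0} := by
        apply Finset.eq_singleton_iff_unique_mem.2
        exact ⟨ht0, fun t ht => bad_unique r v Z l t t0 (hcon t ht) (hcon t0 ht0)⟩
      rw [hs, Finset.sum_singleton] at hz0
      rcases mul_eq_zero.1 hz0 with h1 | h1
      · exact hco l t0 ((map_eq_zero _).1 h1)
      · exact hmon _ h1
    obtain ⟨t1, ht1, hne1⟩ := hex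
    obtain ⟨t, ht⟩ := t1
    rcases t with i | _ | _ | _
    · -- a monomial
      have hvi : v i = l := ht
      refine ⟨Sum.inr (Sum.inl i), ?_, ?_⟩
      · rw [GG, initialGradient_lau _ _ (hco l)]
        rw [Finset.sum_eq_single (⟨Sum.inl i, ht⟩ : Tm r v Z l)]
        · refine mul_ne_zero (mul_ne_zero ?_ ?_) (hmon _)
          · exact (map_ne_zero _).2 (hb i)
          · change ((ex p r β₀ β a l (Sum.inl i) (Sum.inr (eJ n N r (Sum.inr (Sum.inl i)))) : ℤ) :
              AlgebraicClosure k) ≠ 0
            rw [ex_inr]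
            simp only [exJ, if_true]
            rw [Int.cast_natCast]
            intro h1
            exact ha i ((CharP.cast_eq_zero_iff _ p _).1 h1)
        · rintro ⟨t', ht'⟩ - hne'
          have h1 : (ex p r β₀ β a l t' (Sum.inr (eJ n N r (Sum.inr (Sum.inl i)))) : ℤ) = 0 := by
            rw [ex_inr]
            rcases t' with i' | _ | _ | _
            · simp only [exJ]
              rw [if_neg]
              rintro rfl
              exact hne' rfl
            · rfl
            · rfl
            · rfl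
          change _ * ((ex p r β₀ β a l t' (Sum.inr (eJ n N r (Sum.inr (Sum.inl i)))) : ℤ) :
              AlgebraicClosure k) * _ = 0
          rw [h1, Int.cast_zero, mul_zero, zero_mul]
        · intro h1
          exact absurd ht1 h1
      · intro l' hl'
        rw [GG, initialGradient_lau _ _ (hco l')]
        refine Finset.sum_eq_zero ?_
        rintro ⟨t', ht'⟩ -
        have h1 : (ex p r β₀ β a l' t' (Sum.inr (eJ n N r (Sum.inr (Sum.inl i)))) : ℤ) = 0 := by
          rw [ex_inr]
          rcases t' with i' | _ | _ | _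
          · simp only [exJ]
            rw [if_neg]
            rintro rfl
            have h2 : v i = l' := ht'
            exact hl' (Fin.ext (h2.symm.trans hvi))
          · rfl
          · rfl
          · rfl
        change _ * ((ex p r β₀ β a l' t' (Sum.inr (eJ n N r (Sum.inr (Sum.inl i)))) : ℤ) :
            AlgebraicClosure k) * _ = 0
        rw [h1, Int.cast_zero, mul_zero, zero_mul]
    · exact absurd trivial hne1
    · -- the term `-L l`
      have hl0 : 0 < (l : ℕ) := ht
      have hlr : (l : ℕ) ≤ r := Nat.lt_succ_iff.1 l.2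
      refine ⟨Sum.inr (Sum.inr ⟨(l : ℕ) - 1, by omega⟩), ?_, ?_⟩
      · rw [GG, initialGradient_lau _ _ (hco l)]
        rw [Finset.sum_eq_single (⟨Sum.inr (some false), ht⟩ : Tm r v Z l)]
        · refine mul_ne_zero (mul_ne_zero ?_ ?_) (hmon _)
          · exact (map_ne_zero _).2 (hco l ⟨Sum.inr (some false), ht⟩)
          · change ((ex p r β₀ β a l (Sum.inr (some false)) (Sum.inr (eJ n N r
              (Sum.inr (Sum.inr ⟨(l : ℕ) - 1, by omega⟩)))) : ℤ) : AlgebraicClosure k) ≠ 0
            rw [ex_inr]
            simp only [exJ]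
            rw [if_pos (by omega), Int.cast_one]
            exact one_ne_zero
        · rintro ⟨t', ht'⟩ - hne'
          have h1 : (ex p r β₀ β a l t' (Sum.inr (eJ n N r
              (Sum.inr (Sum.inr ⟨(l : ℕ) - 1, by omega⟩)))) : ℤ) = 0 := by
            rw [ex_inr]
            rcases t' with i' | _ | _ | _
            · rfl
            · rfl
            · exact absurd rfl hne'
            · simp only [exJ]
              rw [if_neg (by omega)]
          change _ * ((ex p r β₀ β a l t' (Sum.inr (eJ n N r
              (Sum.inr (Sum.inr ⟨(l : ℕ) - 1, by omega⟩)))) : ℤ) : AlgebraicClosure k) * _ = 0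
          rw [h1, Int.cast_zero, mul_zero, zero_mul]
        · intro h1
          exact absurd ht1 h1
      · intro l' hl'
        have hl'' : (l' : ℕ) ≠ l := fun h => hl' (Fin.ext h)
        rw [GG, initialGradient_lau _ _ (hco l')]
        refine Finset.sum_eq_zero ?_
        rintro ⟨t', ht'⟩ -
        have h1 : ((ex p r β₀ β a l' t' (Sum.inr (eJ n N r
            (Sum.inr (Sum.inr ⟨(l : ℕ) - 1, by omega⟩)))) : ℤ) : AlgebraicClosure k) = 0 := by
          rw [ex_inr]
          rcases t' with i' | _ | _ | _
          · simp [exJ]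
          · simp [exJ]
          · simp only [exJ]
            rw [if_neg (by omega), Int.cast_zero]
          · simp only [exJ]
            by_cases h2 : (l : ℕ) - 1 = l'
            · rw [if_pos h2, Int.cast_natCast]
              exact CharP.cast_eq_zero _ p
            · rw [if_neg h2, Int.cast_zero]
        change _ * ((ex p r β₀ β a l' t' (Sum.inr (eJ n N r
            (Sum.inr (Sum.inr ⟨(l : ℕ) - 1, by omega⟩)))) : ℤ) : AlgebraicClosure k) * _ = 0
        rw [h1, mul_zero, zero_mul]
    · exact absurd trivial hne1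
  choose κ hκ1 hκ2 using key
  have hli : LinearIndependent (AlgebraicClosure k)
      (fun l : Fin (r + 1) => initialGradient (GG p r v β₀ β a Z b₀ b l) w z) := by
    rw [Fintype.linearIndependent_iff]
    intro g hg l
    have h1 := congrFun hg (eJ n N r (κ l))
    rw [Finset.sum_apply, Finset.sum_eq_single l] at h1
    · rw [Pi.smul_apply, smul_eq_mul] at h1
      rcases mul_eq_zero.1 h1 with h2 | h2
      · exact h2
      · exact absurd h2 (hκ1 l)
    · intro l' _ hl'
      rw [Pi.smul_apply, hκ2 l l' hl', smul_zero]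
    · intro h2
      exact absurd (Finset.mem_univ _) h2
  rw [finrank_span_eq_card hli, Fintype.card_fin]

end

end Pool.Agent.X326.TSb
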